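import Mathlib

set_option autoImplicit false

namespace Pool.Agent.Results.MP_ca6fba_co.Counter

/-- WaiterWins E F C: with F the unclaimed vertices and C the vertices of Client, Waiter can force
that Client ends without a full edge of E. -/
inductive WaiterWins {V : Type} [DecidableEq V] (E : Set (Finset V)) : Finset V → Finset V → Prop
  | done (F C : Finset V) : F = ∅ → (∀ e ∈ E, ¬ e ⊆ C) → WaiterWins E F C
  | last (C : Finset V) (v : V) : (∀ e ∈ E, ¬ e ⊆ insert v C) → WaiterWins E {v} C
  | step (F C : Finset V) (x y : V) : x ∈ F → y ∈ F → x ≠ y →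
      WaiterWins E (F \ {x, y}) (insert x C) → WaiterWins E (F \ {x, y}) (insert y C) →
      WaiterWins E F C

def TwoColourable {V : Type} (E : Set (Finset V)) : Prop :=
  ∃ c : V → Fin 2, ∀ e ∈ E, ¬ ∃ i, ∀ v ∈ e, c v = i

def L : List (Finset (Fin 8)) :=
  [{0, 2, 4, 6}, {0, 2, 5, 6}, {0, 3, 4, 6}, {0, 3, 5, 6}, {1, 2, 3, 6}, {1, 2, 5, 6}, {1, 3, 4, 6}, {1, 4, 5, 6}, {0, 1, 2, 7}, {0, 2, 4, 7}, {1, 2, 3, 7}, {2, 3, 4, 7}, {0, 1, 5, 7}, {0, 3, 5, 7}, {1, 4, 5, 7}, {3, 4, 5, 7}]

theorem cover : ∀ X : Finset (Fin 8), (∀ C ∈ L, ¬ X ⊆ C) ∨ ∀ C ∈ L, ¬ Xᶜ ⊆ C := by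
  decide +kernel

theorem result : ∃ (n : ℕ) (E : Set (Finset (Fin n))), ∅ ∉ E ∧
    WaiterWins E Finset.univ ∅ ∧ ¬ TwoColourable E := by
  refine ⟨8, {e | ∀ C ∈ L, ¬ e ⊆ C}, fun h => h {0, 2, 4, 6} (by decide) (by simp), ?_, ?_⟩
  · have key : ∀ C ∈ L, ∀ e ∈ {e | ∀ C ∈ L, ¬ e ⊆ C}, ¬ e ⊆ C := fun C hC e he => he C hC
    exact (.step _ _ 6 7 (by decide) (by decide) (by decide)
     (.step _ _ 0 1 (by decide) (by decide) (by decide)
      (.step _ _ 2 3 (by decide) (by decide) (by decide)
       (.step _ _ 4 5 (by decide) (by decide) (by decide)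
        (.done _ _ (by decide) (key _ (by decide)))
        (.done _ _ (by decide) (key _ (by decide))))
       (.step _ _ 4 5 (by decide) (by decide) (by decide)
        (.done _ _ (by decide) (key _ (by decide)))
        (.done _ _ (by decide) (key _ (by decide)))))
      (.step _ _ 2 4 (by decide) (by decide) (by decide)
       (.step _ _ 3 5 (by decide) (by decide) (by decide)
        (.done _ _ (by decide) (key _ (by decide)))
        (.done _ _ (by decide) (key _ (by decide))))
       (.step _ _ 3 5 (by decide) (by decide) (by decide)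
        (.done _ _ (by decide) (key _ (by decide)))
        (.done _ _ (by decide) (key _ (by decide))))))
     (.step _ _ 2 5 (by decide) (by decide) (by decide)
      (.step _ _ 0 3 (by decide) (by decide) (by decide)
       (.step _ _ 1 4 (by decide) (by decide) (by decide)
        (.done _ _ (by decide) (key _ (by decide)))
        (.done _ _ (by decide) (key _ (by decide))))
       (.step _ _ 1 4 (by decide) (by decide) (by decide)
        (.done _ _ (by decide) (key _ (by decide)))
        (.done _ _ (by decide) (key _ (by decide)))))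
      (.step _ _ 0 4 (by decide) (by decide) (by decide)
       (.step _ _ 1 3 (by decide) (by decide) (by decide)
        (.done _ _ (by decide) (key _ (by decide)))
        (.done _ _ (by decide) (key _ (by decide))))
       (.step _ _ 1 3 (by decide) (by decide) (by decide)
        (.done _ _ (by decide) (key _ (by decide)))
        (.done _ _ (by decide) (key _ (by decide)))))))
  · rintro ⟨c, hc⟩
    rcases cover (Finset.univ.filter fun v => c v = 0) with h | h
    · exact hc _ h ⟨0, fun v hv => by simpa using hv⟩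
    · refine hc _ h ⟨1, fun v hv => ?_⟩
      have : c v ≠ 0 := by simpa using hv
      omega

end Pool.Agent.Results.MP_ca6fba_co.Counter
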